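import Pool.Agent.H92.Simon.Hard

/-!
MP_a86832_lc, Q1: the exact complexity of CF-≡, the equivalence of context-free grammars modulo
Simon's congruence with the parameter `k` in binary. It is coNEXPTIME-complete.
-/

namespace Pool.Agent.Results.MP_a86832_lc.CoNExpComplete

open Pool.Agent.H92.Desc Pool.Agent.H92.Simon

theorem result : CoNEXPComplete cfgLang_rel CFEquiv :=
  ⟨inCoNEXP_CFEquiv, coNEXPHard_CFEquiv⟩

end Pool.Agent.Results.MP_a86832_lc.CoNExpComplete
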